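import Pool.Agent.H12.P5.Stm
import Pool.Agent.H25.P4.LinD

/-!
# The coordinates of a line over a closed frame as polynomials in the time

`za`: absolute time; `zy c u`: the time `(t - c) / u`; `zp`: the time `2 ^ (g 0) (t - X ω 0)`
(centred at the exact time, unit of the window `j`); `zc c u ω l m`: the coefficients of `zy`.
-/

set_option autoImplicit false

namespace Pool.TNL

open Finset Real
open Pool.Agent.H49.Ent Pool.Agent.H32.Dense Pool.STK
open Pool.STAT Pool.MIC.Frm Pool.FRM Pool.P4L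
open Pool.P4 (t0 rt pp bb ze zt z0)

/-- The path of the line. -/
noncomputable def pq (D : NDat2) (x : D.Λ) (l : ℕ) : Polynomial ℝ :=
  if l = 0 then Polynomial.X else D.pa x l

/-- Coordinate `l` of the line over `P`, in natural units of `(i, j)`, in the absolute time. -/
noncomputable def za (D : NDat2) (i j : ℕ) (P : ℕ → PN) (ω : D.Ω) (l : ℕ) : Polynomial ℝ :=
  Polynomial.C (2 ^ D.g i j l) *
    (pq D (D.ln ω) l - MvPolynomial.aeval (pq D (D.ln ω)) (P l))

/-- Coordinate `l` of the line over `P`, in the time `(t - c) / u`. -/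
noncomputable def zy (D : NDat2) (i j : ℕ) (P : ℕ → PN) (c u : ℝ) (ω : D.Ω) (l : ℕ) :
    Polynomial ℝ :=
  (za D i j P ω l).comp (Polynomial.C c + Polynomial.C u * Polynomial.X)

/-- Coordinate `l` of the line over `P`, in the time `2 ^ (g 0) (t - X ω 0)`. -/
noncomputable def zp (D : NDat2) (i j : ℕ) (P : ℕ → PN) (ω : D.Ω) (l : ℕ) : Polynomial ℝ :=
  zy D i j P (D.X ω 0) (1 / 2 ^ D.g i j 0) ω l

/-- The coefficients. -/
noncomputable def zc (D : NDat2) (i j : ℕ) (P : ℕ → PN) (c u : ℝ) (ω : D.Ω) (l m : ℕ) : ℝ :=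
  (zy D i j P c u ω l).coeff m

section

variable {D : NDat2} {i j K K' : ℕ} {P : ℕ → PN} {ω : D.Ω} {l : ℕ} {c c' u : ℝ}

theorem pq_deg (hpa : ∀ x l, (D.pa x l).natDegree ≤ K) (x : D.Λ) (l : ℕ) :
    (pq D x l).natDegree ≤ K + 1 := by
  unfold pq
  split_ifs
  · exact Polynomial.natDegree_X_le.trans (by omega)
  · exact (hpa x l).trans (by omega)

theorem pq_eval (x : D.Λ) (t : ℝ) : (fun i => (pq D x i).eval t) = pp D x t := by
  funext i
  unfold pp pq
  split_ifs
  · exact Polynomial.eval_X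
  · rfl

theorem za_eval (t : ℝ) :
    (za D i j P ω l).eval t = nat (D.g i j) P (pp D (D.ln ω) t) l := by
  unfold za nat
  rw [Polynomial.eval_mul, Polynomial.eval_C, Polynomial.eval_sub, Pool.PTH.eval_aev, pq_eval,
    ← congrFun (pq_eval (D.ln ω) t) l]

theorem za_deg (hpa : ∀ x l, (D.pa x l).natDegree ≤ K) (dP : ∀ l, (P l).totalDegree ≤ K') :
    (za D i j P ω l).natDegree ≤ (K' + 1) * (K + 1) := by
  unfold za
  refine (Polynomial.natDegree_C_mul_le _ _).trans ((Polynomial.natDegree_sub_le _ _).trans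
    (max_le ((pq_deg hpa _ _).trans (Nat.le_mul_of_pos_left _ (by omega)))
      ((Pool.PTH.natDegree_aeval_le' (P l) _ (pq_deg hpa _) (dP l)).trans ?_)))
  exact Nat.mul_le_mul_right _ (by omega)

theorem lin_deg (c u : ℝ) :
    (Polynomial.C c + Polynomial.C u * Polynomial.X : Polynomial ℝ).natDegree ≤ 1 := by
  refine (Polynomial.natDegree_add_le _ _).trans (max_le ?_ ?_)
  · rw [Polynomial.natDegree_C]
    exact Nat.zero_le _
  · exact (Polynomial.natDegree_C_mul_le _ _).trans Polynomial.natDegree_X_le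

theorem zy_eval (τ : ℝ) :
    (zy D i j P c u ω l).eval τ = nat (D.g i j) P (pp D (D.ln ω) (c + u * τ)) l := by
  unfold zy
  rw [Polynomial.eval_comp, Polynomial.eval_add, Polynomial.eval_C, Polynomial.eval_mul,
    Polynomial.eval_C, Polynomial.eval_X, za_eval]

theorem zy_deg (hpa : ∀ x l, (D.pa x l).natDegree ≤ K) (dP : ∀ l, (P l).totalDegree ≤ K') :
    (zy D i j P c u ω l).natDegree ≤ (K' + 1) * (K + 1) := by
  unfold zy
  calc _ ≤ (za D i j P ω l).natDegree * _ := Polynomial.natDegree_comp_le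
    _ ≤ (K' + 1) * (K + 1) * 1 := Nat.mul_le_mul (za_deg hpa dP) (lin_deg c u)
    _ = _ := Nat.mul_one _

theorem zp_eval (r : ℕ) (τ : ℝ) : (zp D i j P ω l).eval τ =
    zt D i j r (fun _ => P) (D.X ω 0 + τ / 2 ^ D.g i j 0) ω l := by
  unfold zp zt
  rw [zy_eval, one_div_mul_eq_div]

theorem zp_deg (hpa : ∀ x l, (D.pa x l).natDegree ≤ K) (dP : ∀ l, (P l).totalDegree ≤ K') :
    (zp D i j P ω l).natDegree ≤ (K' + 1) * (K + 1) := zy_deg hpa dP

/-- Another centre. -/
theorem zy_shift (hu : u ≠ 0) : zy D i j P c' u ω l =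
    (zy D i j P c u ω l).comp (Polynomial.C ((c' - c) / u) + Polynomial.X) := by
  unfold zy
  rw [Polynomial.comp_assoc]
  congr 1
  rw [Polynomial.add_comp, Polynomial.C_comp, Polynomial.mul_comp, Polynomial.C_comp,
    Polynomial.X_comp, mul_add, ← Polynomial.C_mul, mul_div_cancel₀ _ hu, ← add_assoc,
    ← Polynomial.C_add]
  congr 3
  ring

end

end Pool.TNL
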