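import Pool.Agent.H14.TIEN.Lvl
import Pool.Agent.H25.P4.Lin

/-!
# The lines over a closed frame, every degree: combinations of the values

(After helper19, H19/P5/Lin.)
-/

set_option autoImplicit false

namespace Pool.TNL

open Finset Real MvPolynomial
open Pool.Agent.H49.Ent Pool.Agent.H32.Dense Pool.STK
open Pool.STAT Pool.MIC.Frm Pool.FRM Pool.P4L
open Pool.P4 (t0 rt pp PthC FraC bb GoodS FrP)

theorem sm_mono {F : PN} {g : ℕ → ℕ} {l : ℕ} {S δ δ' : ℝ} {α : ℕ →₀ ℕ} (h : Sm g l F S δ α)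
    (hS : 0 ≤ S) (hδ : δ ≤ δ') : Sm g l F S δ' α := by
  unfold Sm at h ⊢
  exact h.trans (div_le_div_of_nonneg_right (mul_le_mul_of_nonneg_left hδ hS) (by positivity))

open Classical in
/-- **Combinations of the coordinates of the lines over a closed frame.** -/
theorem lin_gen (n K K' : ℕ) (lam gam : ℕ → ℝ) (C₁ C : ℝ) (hC₁ : 1 ≤ C₁) (hC : 0 ≤ C)
    (hlam : ∀ l, 1 ≤ l → l ≤ n → lam l = 1) {ν : ℕ} (x : Fin ν → ℝ) (hx : ∀ i, 0 ≤ x i ∧ x i ≤ 1)
    (L : ℝ) (hL : 1 ≤ L) : ∃ C' : ℝ, 1 ≤ C' ∧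
    ∀ (y r a M J a₀ w₀ z i j : ℕ) (D : NDat2) (q : D.Ω → ℝ) (κ : ℝ),
      1 ≤ z → PlG n gam y r a M i j → D.Ok2 n K J a₀ w₀ z M lam gam κ C₁ q →
      ∀ (P : ℕ → PN) (ω : D.Ω), 0 < q ω → GoodS D n K' w₀ z M C ω → FrP D n K' z i j r C P ω →
      ∀ (w : ℕ) (t : ℝ), w₀ + j * z ≤ w → t ≤ D.X ω 0 → D.X ω 0 ≤ t + 1 / 2 ^ w →
        (∀ l ≤ n, ∀ d mu, Wt x L d mu →
          |∑ k, mu k * nat (D.g i j) P (pp D (D.ln ω) (t + x k * (1 / 2 ^ w))) l| ≤
            exp (C' * z)) ∧
        (∀ l, 1 ≤ l → l ≤ n → ∀ d mu, Wt x L d mu →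
          |∑ k, mu k * nat (D.g i j) P (pp D (D.ln ω) (t + x k * (1 / 2 ^ w))) l| ≤
            exp (C' * z) * (2 : ℝ) ^ ((gam l - d) * r * z)) ∧
        ∀ ω', 0 < q ω' → GoodS D n K' w₀ z M C ω' → D.c i j ω = D.c i j ω' →
          t ≤ D.X ω' 0 → D.X ω' 0 ≤ t + 1 / 2 ^ w → ∀ e : ℕ, i + e < M →
          D.c (i + e) (j - r) ω = D.c (i + e) (j - r) ω' →
          ∀ l, 1 ≤ l → l ≤ n → ∀ d mu, Wt x L d mu →
          |∑ k, mu k * (nat (D.g i j) P (pp D (D.ln ω) (t + x k * (1 / 2 ^ w))) l -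
            nat (D.g i j) P (pp D (D.ln ω') (t + x k * (1 / 2 ^ w))) l)| ≤
            exp (C' * z) * ((2 : ℝ) ^ (((gam l - d) * r - e) * z) + 1 / 2 ^ (y * z)) := by
  obtain ⟨K₂, hK₂⟩ : ∃ K₂, K₂ = K + K' := ⟨_, rfl⟩
  obtain ⟨N, hN⟩ : ∃ N, N = K₂ * (K₂ + 1) ^ n := ⟨_, rfl⟩
  obtain ⟨Ct, hCt1, hCt⟩ := tayW (K := ν) ((K₂ + 1) * (K + 1))
  obtain ⟨Cs, Ns, hCs, hsys⟩ := sys_near K₂ (n + 1)
  obtain ⟨c, hc⟩ := exists_nat_ge (4 * C₁ + 1)
  obtain ⟨C₀, hC₀⟩ : ∃ C₀ : ℝ, C₀ = C + 1 + c := ⟨_, rfl⟩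
  have hc0 : (0 : ℝ) ≤ c := Nat.cast_nonneg c
  obtain ⟨e₀, he⟩ : ∃ e₀, e₀ = dd N n := ⟨_, rfl⟩
  obtain ⟨Cd, hCd1, hCd⟩ : ∃ Cd : ℝ, 1 ≤ Cd ∧ ∀ l ≤ n, ((exs l N).card : ℝ) ≤ Cd := by
    refine ⟨1 + ∑ l ∈ range (n + 1), ((exs l N).card : ℝ), ?_, fun l hl => ?_⟩
    · have : 0 ≤ ∑ l ∈ range (n + 1), ((exs l N).card : ℝ) :=
        Finset.sum_nonneg fun _ _ => Nat.cast_nonneg _
      linarith only [this]
    · have := Finset.single_le_sum (f := fun l => ((exs l N).card : ℝ))
        (fun _ _ => Nat.cast_nonneg _) (mem_range.2 (Nat.lt_succ_of_le hl))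
      linarith only [this]
  obtain ⟨C', hC', hnum⟩ := nums n N e₀ Ns (2 * L * Ct) Cs (L * Cd) C₀
    (by nlinarith only [hCt1, hL]) hCs (by nlinarith only [hCd1, hL]) (by rw [hC₀]; positivity)
  refine ⟨C', hC', ?_⟩
  intro y r a M J a₀ w₀ z i j D q κ hz hPl hO P ω hω hG hFP w t hw1 ht1 ht2
  have hzr : (1 : ℝ) ≤ z := by exact_mod_cast hz
  have hz0 : (0 : ℝ) ≤ z := by linarith only [hzr]
  have i2 := hPl.i2
  have j1 := hPl.j1
  have j2 := hPl.j2
  have a1 := hPl.a1
  have hL0 : 0 ≤ L := by linarith only [hL]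
  -- sizes
  exact by
   obtain ⟨E, hE⟩ : ∃ E : ℝ, E = exp (C₀ * z) := ⟨_, rfl⟩
   have hE1 : exp z ≤ E := by
     rw [hE]
     refine exp_le_exp.2 (le_mul_of_one_le_left hz0 ?_)
     rw [hC₀]
     linarith only [hC₁, hC, hc]
   have hE2 : exp (C * z) ≤ E := by
     rw [hE]
     refine exp_le_exp.2 (mul_le_mul_of_nonneg_right ?_ hz0)
     rw [hC₀]
     linarith only [hC₁, hc]
   have hE3 : (2 : ℝ) ^ (c * z) ≤ E := by
     refine (two_pow_le c z).trans ?_
     rw [hE]
     refine exp_le_exp.2 (mul_le_mul_of_nonneg_right ?_ hz0)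
     rw [hC₀]
     linarith only [hC]
   have hEone : 1 ≤ E := (one_le_exp hz0).trans hE1
   have hE0 : 0 < E := by linarith only [hEone]
   obtain ⟨A, hA⟩ : ∃ A : ℝ, A = (4 * E) ^ e₀ := ⟨_, rfl⟩
   have hA1 : 1 ≤ A := by
     rw [hA]
     exact one_le_pow₀ (by linarith only [hEone])
   obtain ⟨B, hB⟩ : ∃ B : ℝ, B = 2 * L * Ct * (4 * E) ^ e₀ * E := ⟨_, rfl⟩
   have hBA : B = 2 * (Ct * L * A) * E := by rw [hB, hA]; ring
   have hCA : A ≤ Ct * L * A := le_mul_of_one_le_left (by linarith only [hA1])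
     (one_le_mul_of_one_le_of_one_le hCt1 hL)
   have hLA : L * A ≤ Ct * L * A := by
     rw [mul_assoc]
     exact le_mul_of_one_le_left (mul_nonneg hL0 (by linarith only [hA1])) hCt1
   have hCA0 : 0 ≤ Ct * L * A := by linarith only [hA1, hCA]
   have hAB : 2 * (Ct * L * A) ≤ B := by
     rw [hBA]
     exact le_mul_of_one_le_right (by linarith only [hCA0]) hEone
   have hAB' : A ≤ B := by linarith only [hA1, hCA, hAB]
   exact by
    have hB1 : 1 ≤ B := hA1.trans hAB'
    obtain ⟨S, hSd⟩ : ∃ S : ℝ, S = Cs * E ^ Ns := ⟨_, rfl⟩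
    have hS0 : 0 ≤ S := by rw [hSd]; positivity
    obtain ⟨S', hS'⟩ : ∃ S' : ℝ, S' = Cs * E ^ Ns * E ^ (n * N + 3) := ⟨_, rfl⟩
    have hSS : S ≤ S' := by
      rw [hS', ← hSd]
      exact le_mul_of_one_le_right hS0 (one_le_pow₀ hEone)
    have hS'0 : 0 ≤ S' := hS0.trans hSS
    have hSp : S * 2 ^ ((n * N + 3) * (c * z)) ≤ S' := by
      rw [hS', ← hSd]
      refine mul_le_mul_of_nonneg_left ?_ hS0
      rw [mul_comm (n * N + 3), pow_mul]
      exact pow_le_pow_left₀ (by positivity) hE3 _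
    obtain ⟨Z, hZ⟩ : ∃ Z : ℝ, Z = B + Cd * (2 * L * B ^ (n * N + 1) * S') := ⟨_, rfl⟩
    have hZ1 : B ≤ Z := by
      rw [hZ]
      have : 0 ≤ Cd * (2 * L * B ^ (n * N + 1) * S') := by positivity
      linarith only [this]
    have hfin : Z ≤ exp (C' * z) := by
      have h1 := hnum z hz E B hE hB
      rw [← hS'] at h1
      rw [hZ]
      have h2 : 0 ≤ L * (Cd * (B ^ (n * N + 1) * S')) := by positivity
      have h3 : L * Cd * (4 * B ^ (n * N + 1) * S') = 4 * (L * (Cd * (B ^ (n * N + 1) * S'))) := by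
        ring
      have h4 : Cd * (2 * L * B ^ (n * N + 1) * S') = 2 * (L * (Cd * (B ^ (n * N + 1) * S'))) := by
        ring
      rw [h3] at h1
      rw [h4]
      linarith only [h1, h2, hB1]
    exact by
     -- the systems
     have hK1 : K ≤ K₂ := by omega
     have dP : ∀ l, (P l).totalDegree ≤ K₂ := fun l => (hFP.deg l).trans (by omega)
     have hP := hFP.tri
     have nP : ∀ i' ≤ i, ∀ l ≤ n,
         nrm (D.g i' j) (1 / 2) (chr P (D.Φ i' j ω l - P l)) ≤ E / 2 ^ D.g i' j l ∧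
         nrm (D.g (i' - 1) (j - r)) (1 / 2) (chr P (D.Φ (i' - 1) (j - r) ω l - P l)) ≤
           E / 2 ^ D.g (i' - 1) (j - r) l := fun i' hi' l hl =>
       ⟨(hFP.near i' hi' l hl).1.trans (div_le_div_of_nonneg_right hE2 (by positivity)),
         (hFP.near i' hi' l hl).2.trans (div_le_div_of_nonneg_right hE2 (by positivity))⟩
     obtain ⟨Q, hQ, dQ', -, nQ'⟩ := hG.fc
     have dQ : ∀ l, (Q l).totalDegree ≤ K₂ := fun l => (dQ' l).trans (by omega)
     have nQ : ∀ i' < M, ∀ j' < M, ∀ l ≤ n,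
         nrm (D.g i' j') (1 / 2) (chr Q (D.Φ i' j' ω l - Q l)) ≤ E / 2 ^ D.g i' j' l :=
       fun i' hi' j' hj' l hl => (nQ' i' hi' j' hj' l hl).trans
         (div_le_div_of_nonneg_right hE2 (by positivity))
     have hLv := lvG_of hO hlam (by linarith only [hC₁]) hc hPl
     -- the difference of the systems
     have sys : ∀ i' j' : ℕ, i' < M → j' < M → (∀ l ≤ n,
         nrm (D.g i' j') (1 / 2) (chr P (D.Φ i' j' ω l - P l)) ≤ E / 2 ^ D.g i' j' l) →
         ∀ l ≤ n, nrm (D.g i' j') (1 / 2) (chr Q (P l - Q l)) ≤ S / 2 ^ D.g i' j' l := by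
       intro i' j' hi' hj' h l hl
       rw [hSd]
       exact hsys (D.g i' j') (D.Φ i' j' ω) P Q E (hO.P_tri i' j' _) hP hQ
         (fun l => (hO.P_deg i' j' _ l).trans hK1) dP dQ hEone (fun l hl => h l (by omega))
         (fun l hl => nQ i' hi' j' hj' l (by omega)) l (by omega)
     have W0 := sys i j (by omega) (by omega) (fun l hl => (nP i le_rfl l hl).1)
     have W1 := sys (i - 1) (j - r) (by omega) (by omega) (fun l hl => (nP i le_rfl l hl).2)
     have W2 := sys (i - a) j (by omega) (by omega) (fun l hl => (nP (i - a) (by omega) l hl).1)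
     exact by
      have vF : ∀ l, (chr Q (P l - Q l)).vars ⊆ range l := fun l =>
        chr_vars hQ (AdxRow.vars_sub_le (hP l) (hQ l))
      have dF : ∀ l ≤ n, (chr Q (P l - Q l)).totalDegree ≤ N := fun l hl => by
        refine (chr_deg (K := K₂) (K' := K₂) hQ (fun k _ => dQ k)
          (AdxRow.vars_sub_le (hP l) (hQ l)) ((totalDegree_sub _ _).trans
            (max_le (dP l) (dQ l)))).trans ?_
        rw [hN]
        exact Nat.mul_le_mul_left _ (Nat.pow_le_pow_right (by omega) hl)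
      have hpw : (1 : ℝ) / 2 ^ w ≤ 1 / 2 ^ (w₀ + j * z) :=
        one_div_le_one_div_of_le (by positivity) (pow_le_pow_right₀ one_le_two hw1)
      have hpw0 : (0 : ℝ) < 1 / 2 ^ w := by positivity
      have hnode : ∀ υ : D.Ω, t ≤ D.X υ 0 → D.X υ 0 ≤ t + 1 / 2 ^ w → ∀ k,
          |t + x k * (1 / 2 ^ w) - D.X υ 0| ≤ 1 / 2 ^ (w₀ + j * z) := by
        intro υ u1 u2 k
        have h5 : x k * (1 / 2 ^ w) ≤ 1 / 2 ^ w := by
          calc x k * (1 / 2 ^ w) ≤ 1 * (1 / 2 ^ w) :=
                mul_le_mul_of_nonneg_right (hx k).2 hpw0.le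
            _ = 1 / 2 ^ w := one_mul _
        have h6 : 0 ≤ x k * (1 / 2 ^ w) := mul_nonneg (hx k).1 hpw0.le
        rw [abs_le]
        constructor <;> linarith
      have hj1w : w₀ + (j - r) * z ≤ w := by
        have : (j - r) * z ≤ j * z := Nat.mul_le_mul_right z (Nat.sub_le _ _)
        omega
      have hrz : r * z ≤ w - (w₀ + (j - r) * z) := by
        have : (j - r) * z + r * z = j * z := by
          rw [← add_mul]
          congr 1
          omega
        omega
      have hwe : (1 : ℝ) / 2 ^ (w - (w₀ + (j - r) * z)) ≤ 1 / 2 ^ (r * z) :=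
        one_div_le_one_div_of_le (by positivity) (pow_le_pow_right₀ one_le_two hrz)
      have hwd : ∀ d : ℕ, ((1 : ℝ) / 2 ^ (w - (w₀ + (j - r) * z))) ^ d ≤
          1 / 2 ^ (d * (r * z)) := fun d => by
        calc ((1 : ℝ) / 2 ^ (w - (w₀ + (j - r) * z))) ^ d ≤ (1 / 2 ^ (r * z)) ^ d :=
              pow_le_pow_left₀ (by positivity) hwe d
          _ = 1 / 2 ^ (d * (r * z)) := by
              rw [div_pow, one_pow, ← pow_mul, mul_comm (r * z) d]
      refine ⟨fun l hl d mu hmu => ?_, fun l l1 hl d mu hmu => ?_, ?_⟩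
      · -- bounds
        have h1 : |∑ k, mu k * nat (D.g i j) P (pp D (D.ln ω) (t + x k * (1 / 2 ^ w))) l| ≤
            L * A := by
          refine Wt.le hmu (by linarith only [hA1]) fun k => ?_
          have h := in_box hO hK1 hP dP (i := i) (j := j) (by omega) (by omega) hE1 hG.pc
            (fun l hl => (nP i le_rfl l hl).1) (hnode ω ht1 ht2 k) l hl
          rw [← hN, ← he, ← hA] at h
          have h2 : |zs P (pp D (D.ln ω) (t + x k * (1 / 2 ^ w))) l| ≤ A * 1 / 2 ^ D.g i j l := by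
            rwa [mul_one]
          have h3 := up h2
          rw [mul_one] at h3
          rw [nat_eq]
          exact h3
        refine h1.trans ?_
        linarith only [hLA, hCA0, hAB, hZ1, hfin]
      · -- one sample
        have h1 := comb_box hO hK1 hP dP (i := i - 1) (j := j - r) (by omega)
          (by omega) hE1 hCt hG.pc (fun l hl => (nP i le_rfl l hl).2) ht1 ht2 hj1w hl hmu hx
        rw [← hN, ← he, ← hA] at h1
        have e1 : Ct * L * (A / 2 ^ D.g (i - 1) (j - r) l) =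
            Ct * L * A / 2 ^ D.g (i - 1) (j - r) l := by ring
        rw [e1] at h1
        have h2 := h1.trans (rp1 (u := D.g i j l) (s := c * z) (t := (gam l - d) * r * z)
          hCA0 (hwd _) hE3 (by
            have := hLv.o l l1 hl
            push_cast
            linarith))
        have t0 : (0 : ℝ) < (2 : ℝ) ^ ((gam l - d) * r * z) := Real.rpow_pos_of_pos (by norm_num) _
        have h3 : Ct * L * A * E * (2 : ℝ) ^ ((gam l - d) * r * z) / 2 ^ D.g i j l ≤
            B * (2 : ℝ) ^ ((gam l - d) * r * z) / 2 ^ D.g i j l := by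
          refine div_le_div_of_nonneg_right (mul_le_mul_of_nonneg_right ?_ t0.le) (by positivity)
          rw [hBA]
          exact mul_le_mul_of_nonneg_right (by linarith only [hCA0]) hE0.le
        have h4 := up (h2.trans h3)
        refine (le_of_eq ?_).trans (h4.trans (mul_le_mul_of_nonneg_right (hZ1.trans hfin) t0.le))
        rw [Finset.mul_sum]
        congr 1
        refine Finset.sum_congr rfl fun k _ => ?_
        rw [nat_eq]
        ring
      -- two samples
      exact by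
       intro ω' hω' hG' hcc hu1 hu2 e heM hce l l1 hl d mu hmu
       have eΦ : D.Φ i j ω' = D.Φ i j ω := by
         unfold NDat2.Φ
         rw [hcc]
       have eE : D.Φ (i + e) (j - r) ω' = D.Φ (i + e) (j - r) ω := by
         unfold NDat2.Φ
         rw [hce]
       obtain ⟨δ, hδ⟩ : ∃ δ : ℝ, δ = (2 : ℝ) ^ (((gam l - d) * r - e) * z) + 1 / 2 ^ (y * z) :=
         ⟨_, rfl⟩
       have ht0 : (0 : ℝ) < (2 : ℝ) ^ (((gam l - d) * r - e) * z) :=
         Real.rpow_pos_of_pos (by norm_num) _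
       have hδ0 : 0 ≤ δ := by rw [hδ]; positivity
       have hδ1 : 1 / 2 ^ (y * z) ≤ δ := by rw [hδ]; linarith only [ht0]
       have hδ2 : (2 : ℝ) ^ (((gam l - d) * r - e) * z) ≤ δ := by
         rw [hδ]
         have : (0 : ℝ) ≤ 1 / 2 ^ (y * z) := by positivity
         linarith only [this]
       rw [← hδ]
       -- natural bounds at `(i, j)`
       have gen : ∀ υ : D.Ω, PthC D n w₀ z M 1 υ → D.Φ i j υ = D.Φ i j ω →
           t ≤ D.X υ 0 → D.X υ 0 ≤ t + 1 / 2 ^ w → ∀ k : Fin ν, ∀ l ≤ n,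
           |zs Q (pp D (D.ln υ) (t + x k * (1 / 2 ^ w))) l| ≤ B / 2 ^ D.g i j l := by
         intro υ hυ e1 u1 u2 k l hl
         have nr : ∀ l ≤ n, nrm (D.g i j) (1 / 2) (chr Q (D.Φ i j υ l - Q l)) ≤
             E / 2 ^ D.g i j l := fun l hl => by
           rw [e1]
           exact nQ i (by omega) j (by omega) l hl
         have h := in_box hO hK1 hQ dQ (i := i) (j := j) (by omega) (by omega) hE1 hυ nr
           (hnode υ u1 u2 k) l hl
         rw [← hN, ← he, ← hA] at h
         exact h.trans (div_le_div_of_nonneg_right hAB' (by positivity))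
       -- small combinations at the place of the line side
       have cmb : ∀ υ : D.Ω, PthC D n w₀ z M 1 υ → D.Φ (i + e) (j - r) υ =
           D.Φ (i + e) (j - r) ω → t ≤ D.X υ 0 → D.X υ 0 ≤ t + 1 / 2 ^ w →
           ∀ m, 1 ≤ m → m ≤ n → ∀ d' mu, Wt x L d' mu →
           (gam m - d') * r ≤ (gam l - d) * r →
           |∑ k, mu k * zs Q (pp D (D.ln υ) (t + x k * (1 / 2 ^ w))) m| ≤
             Ct * L * A * E * δ / 2 ^ D.g i j m := by
         intro υ hυ e1 u1 u2 m m1 hm d' mu hmu hdd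
         have nr : ∀ l ≤ n, nrm (D.g (i + e) (j - r)) (1 / 2)
             (chr Q (D.Φ (i + e) (j - r) υ l - Q l)) ≤ E / 2 ^ D.g (i + e) (j - r) l :=
           fun l hl => by
             rw [e1]
             exact nQ (i + e) heM (j - r) (by omega) l hl
         have h1 := comb_box hO hK1 hQ dQ (i := i + e) (j := j - r) heM.le
           (by omega) hE1 hCt hυ nr u1 u2 hj1w hm hmu hx
         rw [← hN, ← he, ← hA] at h1
         have e3 : Ct * L * (A / 2 ^ D.g (i + e) (j - r) m) =
             Ct * L * A / 2 ^ D.g (i + e) (j - r) m := by ring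
         rw [e3] at h1
         have h2 := h1.trans (rp1 (u := D.g i j m) (s := c * z)
           (t := ((gam m - d') * r - e) * z) hCA0 (hwd _) hE3 (by
             have := lvE hO hlam (by linarith only [hC₁]) hc heM.le j1 j2.le m1 hm
             push_cast
             linarith))
         refine h2.trans (div_le_div_of_nonneg_right (mul_le_mul_of_nonneg_left
           (le_trans ?_ hδ2) (mul_nonneg hCA0 hE0.le)) (by positivity))
         refine Real.rpow_le_rpow_of_exponent_le one_le_two (mul_le_mul_of_nonneg_right ?_ hz0)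
         linarith only [hdd]
       have dif : ∀ m, 1 ≤ m → m ≤ n → ∀ d' nu, Wt x L d' nu →
           (gam m - d') * r ≤ (gam l - d) * r →
           |∑ k, nu k * (zs Q (pp D (D.ln ω) (t + x k * (1 / 2 ^ w))) m -
             zs Q (pp D (D.ln ω') (t + x k * (1 / 2 ^ w))) m)| ≤ B * δ / 2 ^ D.g i j m := by
         intro m m1 hm d' nu hnu hdd
         have a1 := cmb ω hG.pc rfl ht1 ht2 m m1 hm d' nu hnu hdd
         have a2 := cmb ω' hG'.pc eE hu1 hu2 m m1 hm d' nu hnu hdd
         have e1 : ∑ k, nu k * (zs Q (pp D (D.ln ω) (t + x k * (1 / 2 ^ w))) m -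
             zs Q (pp D (D.ln ω') (t + x k * (1 / 2 ^ w))) m) =
             (∑ k, nu k * zs Q (pp D (D.ln ω) (t + x k * (1 / 2 ^ w))) m) -
             ∑ k, nu k * zs Q (pp D (D.ln ω') (t + x k * (1 / 2 ^ w))) m := by
           rw [← Finset.sum_sub_distrib]
           exact Finset.sum_congr rfl fun k _ => by ring
         rw [e1]
         refine (abs_sub _ _).trans ?_
         have e2 : B * δ / 2 ^ D.g i j m =
             Ct * L * A * E * δ / 2 ^ D.g i j m + Ct * L * A * E * δ / 2 ^ D.g i j m := by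
           rw [hBA]
           ring
         rw [e2]
         linarith only [a1, a2]
       exact by
        obtain ⟨τ, hτ⟩ : ∃ τ : Polynomial ℝ, τ = Polynomial.C (t - eval 0 (Q 0)) +
          Polynomial.C (1 / 2 ^ w) * Polynomial.X := ⟨_, rfl⟩
        have hτd : τ.natDegree ≤ 1 := by
          rw [hτ]
          exact lin_deg _ _
        have h0 : ∀ υ : D.Ω, ∀ k : Fin ν,
            zs Q (pp D (D.ln υ) (t + x k * (1 / 2 ^ w))) 0 = τ.eval (x k) := by
          intro υ k
          have h1 : eval (pp D (D.ln υ) (t + x k * (1 / 2 ^ w))) (Q 0) = eval 0 (Q 0) := by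
            refine eval_congr_vars (fun i hi => ?_)
            exact absurd (hQ 0 hi) (by simp)
          unfold zs
          rw [h1, pp_zero, hτ, Polynomial.eval_add, Polynomial.eval_C, Polynomial.eval_mul,
            Polynomial.eval_C, Polynomial.eval_X]
          ring
        have g1 := gen ω hG.pc rfl ht1 ht2
        have g2 := gen ω' hG'.pc eΦ hu1 hu2
        have hr0 : (0 : ℝ) ≤ r := Nat.cast_nonneg r
        have main := coreG (P := P) (Q := Q) (l := l) (N := N) (g := D.g i j) (B := B) (S := S')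
          (δ := δ) (L := L) hQ (vF l) (dF l hl) hB1 hS'0 hδ0 hL
          (x := x) (d := d) (lam := mu) hmu
          (fun α => sm_nat (W0 l hl) hSS α)
          (X := fun k => pp D (D.ln ω) (t + x k * (1 / 2 ^ w)))
          (X' := fun k => pp D (D.ln ω') (t + x k * (1 / 2 ^ w)))
          hτd (h0 ω) (h0 ω') (fun k => by
            rw [← h0 ω k]
            exact g1 k 0 (Nat.zero_le _))
          (fun k m hm => g1 k m (by omega)) (fun k m hm => g2 k m (by omega))
          (fun α hα => by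
            rcases hLv.cases hS0 hSp l1 hl (W1 l hl) (W2 l hl) α hα with h | h | ⟨k, m, k1, h, h'⟩
            · exact Or.inl (sm_mono h hS'0 hδ1)
            · exact Or.inr (Or.inl h)
            · refine Or.inr (Or.inr ⟨k, m, k1, h, fun nu hnu => ?_⟩)
              have hkl := exs_lt hα (Finsupp.mem_support_iff.2 (by
                rw [h, Finsupp.add_apply, Finsupp.single_eq_same]
                omega : α k ≠ 0))
              refine dif k k1 (by omega) _ nu hnu (mul_le_mul_of_nonneg_right ?_ hr0)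
              have h5 : ((d - m : ℕ) : ℝ) + m ≥ d := by
                have : d ≤ d - m + m := by omega
                exact_mod_cast this
              linarith)
          (dif l l1 hl d mu hmu le_rfl)
        have Zle : B + (exs l N).card * (2 * L * B ^ (l * N + 1) * S') ≤ Z := by
          rw [hZ]
          have h1 : B ^ (l * N + 1) ≤ B ^ (n * N + 1) := by
            refine pow_le_pow_right₀ hB1 ?_
            have : l * N ≤ n * N := Nat.mul_le_mul_right N hl
            omega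
          have h2 : ((exs l N).card : ℝ) * (2 * L * B ^ (l * N + 1) * S') ≤
              Cd * (2 * L * B ^ (n * N + 1) * S') := by
            refine mul_le_mul (hCd l hl) ?_ (by positivity) (by linarith only [hCd1])
            exact mul_le_mul_of_nonneg_right (mul_le_mul_of_nonneg_left h1 (by positivity)) hS'0
          linarith only [h2]
        refine (le_of_eq ?_).trans ((up main).trans
          (mul_le_mul_of_nonneg_right (Zle.trans hfin) hδ0))
        rw [Finset.mul_sum]
        congr 1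
        refine Finset.sum_congr rfl fun k _ => ?_
        rw [nat_eq, nat_eq]
        ring

end Pool.TNL
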