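import Pool.Agent.H14.TIEN.Lin
import Mathlib.Algebra.Polynomial.Taylor

/-!
# The lines over a closed frame, every degree: the coefficients

`lin_coef`: the coefficients of the coordinates of the lines over a closed frame, one sample and
two samples with the same label of the line side.
-/

set_option autoImplicit false

namespace Pool.TNL

open Finset Real
open Pool.Agent.H49.Ent Pool.Agent.H32.Dense Pool.STK
open Pool.STAT Pool.MIC.Frm Pool.FRM Pool.P4L
open Pool.P4 (t0 rt pp PthC FraC bb GoodS FrP)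

/-- **Another centre.** -/
theorem coef_shift {N : ℕ} {p : Polynomial ℝ} (hp : p.natDegree ≤ N) {s : ℝ} (hs : |s| ≤ 1)
    {δ : ℕ → ℝ} (h0 : ∀ m, 0 ≤ δ m) (hδ : ∀ m k, m ≤ k → δ k ≤ δ m)
    (h : ∀ m, |p.coeff m| ≤ δ m) (m : ℕ) :
    |(p.comp (Polynomial.C s + Polynomial.X)).coeff m| ≤ (N + 1) * 2 ^ N * δ m := by
  have e1 : p.comp (Polynomial.C s + Polynomial.X) = Polynomial.taylor s p := by
    rw [Polynomial.taylor_apply, add_comm]
  rw [e1, Polynomial.taylor_coeff]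
  have hd : (Polynomial.hasseDeriv m p).natDegree < N + 1 :=
    lt_of_le_of_lt (Polynomial.natDegree_hasseDeriv_le p m) (by omega)
  rw [Polynomial.eval_eq_sum_range' hd]
  refine (Finset.abs_sum_le_sum_abs _ _).trans ?_
  have key : ∀ k ∈ range (N + 1), |(Polynomial.hasseDeriv m p).coeff k * s ^ k| ≤
      2 ^ N * δ m := by
    intro k _
    rw [Polynomial.hasseDeriv_coeff, abs_mul, abs_mul, abs_pow]
    have h1 : |s| ^ k ≤ 1 := pow_le_one₀ (abs_nonneg s) hs
    have h2 : |((k + m).choose m : ℝ)| * |p.coeff (k + m)| ≤ 2 ^ N * δ m := by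
      rcases Nat.lt_or_ge N (k + m) with h3 | h3
      · rw [Polynomial.coeff_eq_zero_of_natDegree_lt (lt_of_le_of_lt hp h3), abs_zero, mul_zero]
        exact mul_nonneg (by positivity) (h0 m)
      · refine mul_le_mul ?_ ((h _).trans (hδ m _ (by omega))) (abs_nonneg _) (by positivity)
        rw [Nat.abs_cast]
        have h4 : (k + m).choose m ≤ 2 ^ N :=
          (Nat.choose_le_two_pow _ _).trans (Nat.pow_le_pow_right (by norm_num) h3)
        exact_mod_cast h4
    calc _ ≤ |((k + m).choose m : ℝ)| * |p.coeff (k + m)| * 1 :=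
          mul_le_mul_of_nonneg_left h1 (by positivity)
      _ ≤ _ := by rw [mul_one]; exact h2
  refine (Finset.sum_le_sum key).trans (le_of_eq ?_)
  rw [Finset.sum_const, card_range, nsmul_eq_mul]
  push_cast
  ring

/-- **(LIN)**, every degree: the coefficients of the coordinates of the lines over a closed frame,
in the time `2 ^ w (t - c)`. -/
theorem lin_coef (n K K' : ℕ) (lam gam : ℕ → ℝ) (C₁ C : ℝ) (hC₁ : 1 ≤ C₁) (hC : 0 ≤ C)
    (hlam : ∀ l, 1 ≤ l → l ≤ n → lam l = 1) : ∃ C' : ℝ, 1 ≤ C' ∧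
    ∀ (y r a M J a₀ w₀ z i j : ℕ) (D : NDat2) (q : D.Ω → ℝ) (κ : ℝ),
      1 ≤ z → PlG n gam y r a M i j → D.Ok2 n K J a₀ w₀ z M lam gam κ C₁ q →
      ∀ (P : ℕ → PN) (ω : D.Ω), 0 < q ω → GoodS D n K' w₀ z M C ω → FrP D n K' z i j r C P ω →
      ∀ (w : ℕ) (t c : ℝ), w₀ + j * z ≤ w → t ≤ D.X ω 0 → D.X ω 0 ≤ t + 1 / 2 ^ w →
        |c - t| ≤ 1 / 2 ^ w →
        (∀ l ≤ n, ∀ m, |zc D i j P c (1 / 2 ^ w) ω l m| ≤ exp (C' * z)) ∧
        (∀ l, 1 ≤ l → l ≤ n → ∀ m, |zc D i j P c (1 / 2 ^ w) ω l m| ≤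
          exp (C' * z) * (2 : ℝ) ^ ((gam l - m) * r * z)) ∧
        ∀ ω', 0 < q ω' → GoodS D n K' w₀ z M C ω' → D.c i j ω = D.c i j ω' →
          t ≤ D.X ω' 0 → D.X ω' 0 ≤ t + 1 / 2 ^ w → ∀ e : ℕ, i + e < M →
          D.c (i + e) (j - r) ω = D.c (i + e) (j - r) ω' →
          ∀ l, 1 ≤ l → l ≤ n → ∀ m,
          |zc D i j P c (1 / 2 ^ w) ω l m - zc D i j P c (1 / 2 ^ w) ω' l m| ≤
            exp (C' * z) * ((2 : ℝ) ^ (((gam l - m) * r - e) * z) + 1 / 2 ^ (y * z)) := by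
  obtain ⟨N, hN⟩ : ∃ N, N = (K' + 1) * (K + 1) := ⟨_, rfl⟩
  obtain ⟨x, L, hL, hx, hmu⟩ := ext_nodes N
  obtain ⟨C', hC', H⟩ := lin_gen n K K' lam gam C₁ C hC₁ hC hlam x hx L hL
  obtain ⟨k, hk⟩ : ∃ k : ℝ, k = ((N : ℝ) + 1) * 2 ^ N := ⟨_, rfl⟩
  have hk0 : 0 ≤ k := by rw [hk]; positivity
  refine ⟨C' + k, by linarith, ?_⟩
  intro y r a M J a₀ w₀ z i j D q κ hz hPl hO P ω hω hG hFP w t c hw ht1 ht2 hct
  obtain ⟨H1, H2, H3⟩ := H y r a M J a₀ w₀ z i j D q κ hz hPl hO P ω hω hG hFP w t hw ht1 ht2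
  have hzr : (1 : ℝ) ≤ z := by exact_mod_cast hz
  have hu0 : (0 : ℝ) < 1 / 2 ^ w := by positivity
  have hrz : (0 : ℝ) ≤ r * z := by positivity
  have hdeg : ∀ υ l, (zy D i j P t (1 / 2 ^ w) υ l).natDegree ≤ N := fun υ l => by
    rw [hN]
    exact zy_deg hO.pa_deg hFP.deg
  have hval : ∀ υ l, (∀ p ≤ N, ∀ mu : Fin (N + 1) → ℝ,
      (∀ q : Polynomial ℝ, q.natDegree ≤ N → ∑ i, mu i * q.eval (x i) = q.coeff p) →
      zc D i j P t (1 / 2 ^ w) υ l p =
        ∑ k, mu k * nat (D.g i j) P (pp D (D.ln υ) (t + x k * (1 / 2 ^ w))) l) := by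
    intro υ l p _ mu hm
    unfold zc
    rw [← hm _ (hdeg υ l)]
    refine Finset.sum_congr rfl fun k _ => ?_
    rw [zy_eval, mul_comm (x k)]
  have hs : |(c - t) / (1 / 2 ^ w)| ≤ 1 := by
    rw [abs_div, abs_of_pos hu0, div_le_one hu0]
    exact hct
  have hE : ∀ X : ℝ, 0 ≤ X → (N + 1) * 2 ^ N * (exp (C' * z) * X) ≤ exp ((C' + k) * z) * X := by
    intro X hX
    rw [← hk, ← mul_assoc]
    refine mul_le_mul_of_nonneg_right ?_ hX
    rw [add_mul, Real.exp_add, mul_comm k]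
    refine mul_le_mul_of_nonneg_left ?_ (Real.exp_pos _).le
    have h1 := Real.add_one_le_exp (k * z)
    have h2 : k ≤ k * z := le_mul_of_one_le_right hk0 hzr
    linarith
  have key : ∀ (p : Polynomial ℝ), p.natDegree ≤ N → ∀ δ : ℕ → ℝ, (∀ m, 0 ≤ δ m) →
      (∀ m k, m ≤ k → δ k ≤ δ m) → (∀ m, |p.coeff m| ≤ exp (C' * z) * δ m) → ∀ m,
      |(p.comp (Polynomial.C ((c - t) / (1 / 2 ^ w)) + Polynomial.X)).coeff m| ≤
        exp ((C' + k) * z) * δ m := by
    intro p hp δ h0 hδ h m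
    refine (coef_shift hp hs (δ := fun m => exp (C' * z) * δ m)
      (fun m => mul_nonneg (Real.exp_pos _).le (h0 m))
      (fun m k hmk => mul_le_mul_of_nonneg_left (hδ m k hmk) (Real.exp_pos _).le) h m).trans
      (hE _ (h0 m))
  have hrp : ∀ s s' : ℝ, s ≤ s' → (2 : ℝ) ^ s ≤ (2 : ℝ) ^ s' := fun s s' h =>
    Real.rpow_le_rpow_of_exponent_le one_le_two h
  have hrp0 : ∀ s : ℝ, (0 : ℝ) < (2 : ℝ) ^ s := fun s => Real.rpow_pos_of_pos (by norm_num) s
  refine ⟨fun l hl m => ?_, fun l l1 hl m => ?_, ?_⟩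
  · unfold zc
    rw [zy_shift (c := t) hu0.ne']
    have h := key _ (hdeg ω l) (fun _ => 1) (fun _ => zero_le_one) (fun _ _ _ => le_rfl)
      (fun p => by
        rw [mul_one]
        rcases Nat.lt_or_ge N p with h1 | h1
        · rw [Polynomial.coeff_eq_zero_of_natDegree_lt (lt_of_le_of_lt (hdeg ω l) h1), abs_zero]
          exact (Real.exp_pos _).le
        · obtain ⟨mu, hm1, hm2⟩ := hmu p h1
          have h2 := hval ω l p h1 mu hm2
          unfold zc at h2
          rw [h2]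
          exact H1 l hl p mu hm1) m
    rwa [mul_one] at h
  · unfold zc
    rw [zy_shift (c := t) hu0.ne']
    exact key _ (hdeg ω l) (fun m => (2 : ℝ) ^ ((gam l - m) * r * z)) (fun m => (hrp0 _).le)
      (fun m k hmk => hrp _ _ (by
        have h1 : (m : ℝ) ≤ k := by exact_mod_cast hmk
        rw [mul_assoc, mul_assoc]
        exact mul_le_mul_of_nonneg_right (by linarith) hrz))
      (fun p => by
        rcases Nat.lt_or_ge N p with h1 | h1
        · rw [Polynomial.coeff_eq_zero_of_natDegree_lt (lt_of_le_of_lt (hdeg ω l) h1), abs_zero]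
          exact mul_nonneg (Real.exp_pos _).le (hrp0 _).le
        · obtain ⟨mu, hm1, hm2⟩ := hmu p h1
          have h2 := hval ω l p h1 mu hm2
          unfold zc at h2
          rw [h2]
          exact H2 l l1 hl p mu hm1) m
  · intro ω' hω' hG' hcc hu1 hu2 e heM hce l l1 hl m
    unfold zc
    rw [zy_shift (ω := ω) (c' := c) (c := t) hu0.ne', zy_shift (ω := ω') (c' := c) (c := t) hu0.ne',
      ← Polynomial.coeff_sub, ← Polynomial.sub_comp]
    have hdd : (zy D i j P t (1 / 2 ^ w) ω l - zy D i j P t (1 / 2 ^ w) ω' l).natDegree ≤ N :=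
      (Polynomial.natDegree_sub_le _ _).trans (max_le (hdeg ω l) (hdeg ω' l))
    refine key _ hdd (fun m => (2 : ℝ) ^ (((gam l - m) * r - e) * z) + 1 / 2 ^ (y * z))
      (fun m => ?_) (fun m k hmk => ?_) (fun p => ?_) m
    · have := hrp0 (((gam l - m) * r - e) * z)
      positivity
    · refine add_le_add_left (hrp _ _ ?_) _
      have h1 : (m : ℝ) ≤ k := by exact_mod_cast hmk
      have h2 : (0 : ℝ) ≤ r := Nat.cast_nonneg r
      refine mul_le_mul_of_nonneg_right ?_ (by linarith)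
      have := mul_le_mul_of_nonneg_right (by linarith : gam l - (k : ℝ) ≤ gam l - m) h2
      linarith
    · rcases Nat.lt_or_ge N p with h1 | h1
      · rw [Polynomial.coeff_eq_zero_of_natDegree_lt (lt_of_le_of_lt hdd h1), abs_zero]
        have := hrp0 (((gam l - p) * r - e) * z)
        positivity
      · obtain ⟨mu, hm1, hm2⟩ := hmu p h1
        have h2 := hval ω l p h1 mu hm2
        have h3 := hval ω' l p h1 mu hm2
        unfold zc at h2 h3
        rw [Polynomial.coeff_sub, h2, h3, ← Finset.sum_sub_distrib]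
        have h4 := H3 ω' hω' hG' hcc hu1 hu2 e heM hce l l1 hl p mu hm1
        refine (le_of_eq ?_).trans h4
        congr 1
        exact Finset.sum_congr rfl fun k _ => by ring

end Pool.TNL
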