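import Pool.Agent.H14.TIEN.Wt
import Pool.Agent.H14.TIEN.Def

/-!
# Lines over a closed frame, every degree: levels of a cell, combinations of the path

(After helper19, H19/P5/Lvl.)
-/

set_option autoImplicit false

namespace Pool.TNL

open Finset Real MvPolynomial
open Pool.Agent.H49.Ent Pool.Agent.H32.Dense Pool.STK
open Pool.STAT Pool.MIC.Frm Pool.FRM Pool.P4L
open Pool.P4 (t0 rt pp PthC)

/-- **The arithmetic of a place**, real slopes with gaps: `y` is the margin, `r` the step. -/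
structure PlG (n : ℕ) (gam : ℕ → ℝ) (y r a M i j : ℕ) : Prop where
  y1 : 1 ≤ y
  yr : y ≤ r
  ya : y ≤ a
  a1 : a ≤ i
  i2 : i < M
  j1 : r ≤ j
  j2 : j < M
  gap : ∀ k l m : ℕ, 1 ≤ k → k ≤ n → 1 ≤ l → l ≤ n → gam l < gam k + m →
    gam l * r + y ≤ (gam k + m) * r

/-- **Levels** at the base place (`g`) and at the coarser places (`g1`: a longer window, `g2`: a
larger radius). -/
structure LvG (n c y z r a : ℕ) (gam : ℕ → ℝ) (g g1 g2 : ℕ → ℕ) : Prop where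
  t1 : g1 0 + r * z = g 0
  t2 : g2 0 = g 0
  ya : y ≤ a
  o : ∀ l, 1 ≤ l → l ≤ n → (g l : ℝ) ≤ g1 l + gam l * r * z + c * z
  q1 : ∀ k, 1 ≤ k → k ≤ n → g2 k + a * z ≤ g k + c * z
  q2 : ∀ l, 1 ≤ l → l ≤ n → g l ≤ g2 l + a * z + c * z
  s1 : ∀ l k m : ℕ, 1 ≤ l → l ≤ n → 1 ≤ k → k ≤ n → gam l < gam k + m →
    g1 k + m * g1 0 + g l + y * z ≤ g k + m * g 0 + g1 l + c * z

section

variable {n c y z r a : ℕ} {gam : ℕ → ℝ} {g g1 g2 : ℕ → ℕ}

theorem LvG.quad (h : LvG n c y z r a gam g g1 g2) {l N k k' : ℕ} {γ : ℕ →₀ ℕ}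
    (l1 : 1 ≤ l) (ln : l ≤ n) (k1 : 1 ≤ k) (k1' : 1 ≤ k')
    (hα : Finsupp.single k 1 + (Finsupp.single k' 1 + γ) ∈ exs l N) :
    Finsupp.weight g2 (Finsupp.single k 1 + (Finsupp.single k' 1 + γ)) + g l + y * z ≤
      Finsupp.weight g (Finsupp.single k 1 + (Finsupp.single k' 1 + γ)) + g2 l +
        (n * N + 3) * (c * z) := by
  have hlt : ∀ i, (Finsupp.single k 1 + (Finsupp.single k' 1 + γ) : ℕ →₀ ℕ) i ≠ 0 → i < l :=
    fun i hi => exs_lt hα (Finsupp.mem_support_iff.2 hi)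
  have hk : k < l := hlt k (by
    rw [Finsupp.add_apply, Finsupp.single_eq_same]
    omega)
  have hk' : k' < l := hlt k' (by
    rw [Finsupp.add_apply, Finsupp.add_apply, Finsupp.single_eq_same]
    omega)
  have hγ : ∀ i, γ i ≠ 0 → i < l := fun i hi => hlt i (by
    rw [Finsupp.add_apply, Finsupp.add_apply]
    omega)
  have hdeg := exs_deg hα
  rw [← Finsupp.degree_apply, map_add, map_add, Finsupp.degree_single, Finsupp.degree_single]
    at hdeg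
  have hd2 : γ.degree ≤ n * N := by
    have : l * N ≤ n * N := Nat.mul_le_mul_right N ln
    omega
  have hw := wt_le (d := g) (d' := g2) (e := c * z) hγ fun i hi => by
    rcases Nat.eq_zero_or_pos i with h0 | h0
    · rw [h0, h.t2]
      exact Nat.le_add_right _ _
    · have := h.q1 i h0 (by omega)
      omega
  rw [map_add, map_add, map_add, map_add, Finsupp.weight_single, Finsupp.weight_single,
    Finsupp.weight_single, Finsupp.weight_single, one_smul, one_smul, one_smul, one_smul]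
  have e1 := h.q1 k k1 (by omega)
  have e2 := h.q1 k' k1' (by omega)
  have e3 := h.q2 l l1 ln
  have e4 : y * z ≤ a * z := Nat.mul_le_mul_right z h.ya
  have e5 : γ.degree * (c * z) ≤ n * N * (c * z) := Nat.mul_le_mul_right _ hd2
  have e6 : (n * N + 3) * (c * z) = n * N * (c * z) + 3 * (c * z) := by ring
  omega

/-- The coefficients are small or linear. -/
theorem LvG.cases (h : LvG n c y z r a gam g g1 g2) {F : PN} {l N : ℕ} {S S' : ℝ}
    (hS : 0 ≤ S) (hS' : S * 2 ^ ((n * N + 3) * (c * z)) ≤ S') (l1 : 1 ≤ l) (ln : l ≤ n)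
    (h1 : nrm g1 (1 / 2) F ≤ S / 2 ^ g1 l)
    (h2 : nrm g2 (1 / 2) F ≤ S / 2 ^ g2 l) : ∀ α ∈ exs l N,
    Sm g l F S' (1 / 2 ^ (y * z)) α ∨ (∀ k, 1 ≤ k → α k = 0) ∨
      ∃ k m : ℕ, 1 ≤ k ∧ α = Finsupp.single k 1 + Finsupp.single 0 m ∧ gam k + m ≤ gam l := by
  intro α hα
  by_cases ha : ∃ k, 1 ≤ k ∧ α k ≠ 0
  swap
  · push Not at ha
    exact Or.inr (Or.inl ha)
  obtain ⟨k, k1, hk⟩ := ha
  have hkl := exs_lt hα (Finsupp.mem_support_iff.2 hk)
  rcases split_exp hk with ⟨k', γ, k1', e⟩ | ⟨m, e⟩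
  · left
    rw [e] at hα ⊢
    exact (sm_of hS h2 (h.quad l1 ln k1 k1' hα)).mono hS' (by positivity)
  · rcases lt_or_ge (gam l) (gam k + m) with hm | hm
    · left
      rw [e]
      refine (sm_of hS h1 (u := y * z) (v := c * z) ?_).mono (le_trans ?_ hS') (by positivity)
      · rw [map_add, map_add, Finsupp.weight_single, Finsupp.weight_single, Finsupp.weight_single,
          Finsupp.weight_single, one_smul, one_smul, smul_eq_mul, smul_eq_mul]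
        exact h.s1 l k m l1 ln k1 (by omega) hm
      · refine mul_le_mul_of_nonneg_left (pow_le_pow_right₀ one_le_two ?_) hS
        exact Nat.le_mul_of_pos_left _ (by omega)
    · exact Or.inr (Or.inr ⟨k, m, k1, e, hm⟩)

end

/-- Powers with a real exponent. -/
theorem rp1 {u v q s : ℕ} {X e E t : ℝ} (hX : 0 ≤ X) (he : e ≤ 1 / 2 ^ q)
    (hE : (2 : ℝ) ^ s ≤ E) (h : (u : ℝ) ≤ v + q + s + t) :
    X / 2 ^ v * e ≤ X * E * (2 : ℝ) ^ t / 2 ^ u := by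
  have h1 : (2 : ℝ) ^ u ≤ 2 ^ v * 2 ^ q * 2 ^ s * (2 : ℝ) ^ t := by
    rw [← pow_add, ← pow_add, ← Real.rpow_natCast, ← Real.rpow_natCast,
      ← Real.rpow_add (by norm_num)]
    refine Real.rpow_le_rpow_of_exponent_le one_le_two ?_
    push_cast
    exact h
  have t0 : (0 : ℝ) < (2 : ℝ) ^ t := Real.rpow_pos_of_pos (by norm_num) t
  have h2 : X / 2 ^ v * e ≤ X / 2 ^ v * (1 / 2 ^ q) := mul_le_mul_of_nonneg_left he (by positivity)
  refine h2.trans ?_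
  rw [div_mul_div_comm, mul_one, div_le_div_iff₀ (by positivity) (by positivity)]
  calc X * 2 ^ u ≤ X * (2 ^ v * 2 ^ q * 2 ^ s * (2 : ℝ) ^ t) := mul_le_mul_of_nonneg_left h1 hX
    _ ≤ X * (2 ^ v * 2 ^ q * E * (2 : ℝ) ^ t) := by
        refine mul_le_mul_of_nonneg_left (mul_le_mul_of_nonneg_right
          (mul_le_mul_of_nonneg_left hE (by positivity)) t0.le) hX
    _ = X * E * (2 : ℝ) ^ t * (2 ^ v * 2 ^ q) := by ring

section

variable {D : NDat2} {n K J a₀ w₀ z M : ℕ} {lam gam : ℕ → ℝ} {κ C₁ : ℝ} {q : D.Ω → ℝ}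

theorem lvG_of (hO : D.Ok2 n K J a₀ w₀ z M lam gam κ C₁ q)
    (hlam : ∀ l, 1 ≤ l → l ≤ n → lam l = 1) (hC₁ : 0 ≤ C₁) {c : ℕ} (hc : 4 * C₁ + 1 ≤ c)
    {y r a i j : ℕ} (hP : PlG n gam y r a M i j) :
    LvG n c y z r a gam (D.g i j) (D.g (i - 1) (j - r)) (D.g (i - a) j) := by
  have hz0 : (0 : ℝ) ≤ z := Nat.cast_nonneg z
  have i2 := hP.i2
  have j1 := hP.j1
  have j2 := hP.j2
  have a1 := hP.a1
  have hcz' : (4 * C₁ + 1) * z ≤ c * z := mul_le_mul_of_nonneg_right hc hz0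
  have hcz : 4 * C₁ * z + z ≤ c * z := by linarith
  have hi1 : 1 ≤ i := by
    have h1 := hP.y1
    have h2 := hP.ya
    omega
  have hCz : 0 ≤ C₁ * z := mul_nonneg hC₁ hz0
  have ejr : ((j - r : ℕ) : ℝ) = j - r := by rw [Nat.cast_sub j1]
  have eia : ((i - a : ℕ) : ℝ) = i - a := by rw [Nat.cast_sub a1]
  have ei1 : ((i - 1 : ℕ) : ℝ) = i - 1 := by rw [Nat.cast_sub hi1, Nat.cast_one]
  have L1 : ∀ l, 1 ≤ l → l ≤ n →
      |(D.g i j l : ℝ) - D.g (i - 1) (j - r) l - (1 + gam l * r) * z| ≤ 2 * C₁ * z := by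
    intro l l1 ln
    have h := lv_ok hO hlam (i₁ := i) (j₁ := j) (i₂ := i - 1) (j₂ := j - r) (by omega) (by omega)
      (by omega) (by omega) l1 ln
    rw [ejr, ei1] at h
    rw [show (i : ℝ) - (i - 1) + gam l * (j - (j - r)) = 1 + gam l * r by ring] at h
    exact h
  have L2 : ∀ l, 1 ≤ l → l ≤ n →
      |(D.g i j l : ℝ) - D.g (i - a) j l - (a : ℝ) * z| ≤ 2 * C₁ * z := by
    intro l l1 ln
    have h := lv_ok hO hlam (i₁ := i) (j₁ := j) (i₂ := i - a) (j₂ := j) (by omega) (by omega)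
      (by omega) (by omega) l1 ln
    rw [eia] at h
    rw [show (i : ℝ) - (i - a) + gam l * (j - j) = a by ring] at h
    exact h
  have g0 : D.g i j 0 = w₀ + j * z := hO.g_zero i j
  have g1 : D.g (i - 1) (j - r) 0 = w₀ + (j - r) * z := hO.g_zero (i - 1) (j - r)
  have g2 : D.g (i - a) j 0 = w₀ + j * z := hO.g_zero (i - a) j
  have ej : (j - r) * z + r * z = j * z := by
    rw [← add_mul]
    congr 1
    omega
  have mz : ∀ {x y : ℝ}, x ≤ y → x * z ≤ y * z := fun h => mul_le_mul_of_nonneg_right h hz0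
  have t1 : D.g (i - 1) (j - r) 0 + r * z = D.g i j 0 := by
    rw [g0, g1]
    omega
  refine ⟨t1, by rw [g0, g2], hP.ya, ?_, ?_, ?_, ?_⟩
  · intro l l1 ln
    have e1 := (abs_le.1 (L1 l l1 ln)).2
    linarith
  · intro l l1 ln
    have e1 := (abs_le.1 (L2 l l1 ln)).1
    have e3 : (D.g (i - a) j l : ℝ) + a * z ≤ D.g i j l + c * z := by linarith
    exact_mod_cast e3
  · intro l l1 ln
    have e1 := (abs_le.1 (L2 l l1 ln)).2
    have e3 : (D.g i j l : ℝ) ≤ D.g (i - a) j l + a * z + c * z := by linarith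
    exact_mod_cast e3
  · intro l k m l1 ln k1 kn hm
    have e1 := (abs_le.1 (L1 l l1 ln)).2
    have e2 := (abs_le.1 (L1 k k1 kn)).1
    have e3 : (gam l * r + y) * z ≤ ((gam k + m) * r) * z := mz (hP.gap k l m k1 kn l1 ln hm)
    have e5 : (D.g (i - 1) (j - r) 0 : ℝ) + r * z = D.g i j 0 := by exact_mod_cast t1
    have e6 : (m : ℝ) * D.g i j 0 = m * D.g (i - 1) (j - r) 0 + m * (r * z) := by
      rw [← e5]
      ring
    have e4 : (D.g (i - 1) (j - r) k : ℝ) + m * D.g (i - 1) (j - r) 0 + D.g i j l + y * z ≤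
        D.g i j k + m * D.g i j 0 + D.g (i - 1) (j - r) l + c * z := by
      rw [e6]
      linarith
    exact_mod_cast e4

/-- The level at a place of the line side. -/
theorem lvE (hO : D.Ok2 n K J a₀ w₀ z M lam gam κ C₁ q)
    (hlam : ∀ l, 1 ≤ l → l ≤ n → lam l = 1) (hC₁ : 0 ≤ C₁) {c : ℕ} (hc : 4 * C₁ + 1 ≤ c)
    {r e i j : ℕ} (hi : i + e ≤ M) (j1 : r ≤ j) (j2 : j ≤ M) {l : ℕ} (l1 : 1 ≤ l) (ln : l ≤ n) :
    (D.g i j l : ℝ) ≤ D.g (i + e) (j - r) l + (gam l * r - e) * z + c * z := by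
  have hz0 : (0 : ℝ) ≤ z := Nat.cast_nonneg z
  have hcz' : (4 * C₁ + 1) * z ≤ c * z := mul_le_mul_of_nonneg_right hc hz0
  have hcz : 4 * C₁ * z + z ≤ c * z := by linarith
  have hCz : 0 ≤ C₁ * z := mul_nonneg hC₁ hz0
  have ejr : ((j - r : ℕ) : ℝ) = j - r := by rw [Nat.cast_sub j1]
  have h := lv_ok hO hlam (i₁ := i) (j₁ := j) (i₂ := i + e) (j₂ := j - r) (by omega) (by omega)
    hi (by omega) l1 ln
  rw [ejr] at h
  push_cast at h
  rw [show (i : ℝ) - (i + e) + gam l * (j - (j - r)) = gam l * r - e by ring] at h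
  have e1 := (abs_le.1 h).2
  linarith

/-- Combinations of the path of a sample in the chart of a system near to the label at `(i, j)`. -/
theorem comb_box (hO : D.Ok2 n K J a₀ w₀ z M lam gam κ C₁ q) {K₂ : ℕ} (hK : K ≤ K₂) {P : ℕ → PN}
    (hP : TriN P) (dP : ∀ l, (P l).totalDegree ≤ K₂) {i j : ℕ} (hi : i ≤ M) (hj : j ≤ M) {E : ℝ}
    (hE : exp z ≤ E) {ν : ℕ} {Ct : ℝ} (hCt : ∀ (x : Fin ν → ℝ) (L : ℝ) (d : ℕ) (lam : Fin ν → ℝ),
      Wt x L d lam → (∀ i, 0 ≤ x i ∧ x i ≤ 1) → ∀ (Q : Polynomial ℝ) (t₀ h ρ A : ℝ),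
      Q.natDegree ≤ (K₂ + 1) * (K + 1) → 0 ≤ h → 0 < ρ → h ≤ ρ →
      (∀ t, t₀ ≤ t → t ≤ t₀ + ρ → |Q.eval t| ≤ A) →
      |∑ i, lam i * Q.eval (t₀ + x i * h)| ≤ Ct * L * A * (h / ρ) ^ d)
    {ω : D.Ω} (hω : PthC D n w₀ z M 1 ω)
    (near : ∀ l ≤ n, nrm (D.g i j) (1 / 2) (chr P (D.Φ i j ω l - P l)) ≤ E / 2 ^ D.g i j l)
    {w : ℕ} {t : ℝ} (ht1 : t ≤ D.X ω 0) (ht2 : D.X ω 0 ≤ t + 1 / 2 ^ w)
    (hjw : w₀ + j * z ≤ w) {l : ℕ} (hl : l ≤ n) {x mu : Fin ν → ℝ} {L : ℝ}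
    {d : ℕ} (hwt : Wt x L d mu) (hx : ∀ i, 0 ≤ x i ∧ x i ≤ 1) :
    |∑ k, mu k * zs P (pp D (D.ln ω) (t + x k * (1 / 2 ^ w))) l| ≤
      Ct * L * ((4 * E) ^ dd (K₂ * (K₂ + 1) ^ n) n / 2 ^ D.g i j l) *
        (1 / 2 ^ (w - (w₀ + j * z))) ^ d := by
  obtain ⟨R, hR, hRe⟩ := path_pol (K := K) (K' := K₂) hO.pa_deg dP (D.ln ω) l
  have e1 : (1 / 2 ^ w : ℝ) / (1 / 2 ^ (w₀ + j * z)) = 1 / 2 ^ (w - (w₀ + j * z)) := by
    have h3 : (2 : ℝ) ^ w = 2 ^ (w - (w₀ + j * z)) * 2 ^ (w₀ + j * z) := by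
      rw [← pow_add]
      congr 1
      omega
    rw [h3]
    field_simp
  have hww : (1 : ℝ) / 2 ^ w ≤ 1 / 2 ^ (w₀ + j * z) :=
    one_div_le_one_div_of_le (by positivity) (pow_le_pow_right₀ one_le_two hjw)
  have h := hCt x L d mu hwt hx R t (1 / 2 ^ w) (1 / 2 ^ (w₀ + j * z))
    ((4 * E) ^ dd (K₂ * (K₂ + 1) ^ n) n / 2 ^ D.g i j l) hR (by positivity) (by positivity) hww
    (fun s s1 s2 => by
      rw [hRe]
      refine in_box hO hK hP dP hi hj hE hω near ?_ l hl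
      rw [abs_le]
      constructor <;> linarith)
  rw [e1] at h
  simp only [hRe] at h
  exact h

end

end Pool.TNL
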