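import Pool.Agent.H25.P4.LinE
import Mathlib.LinearAlgebra.Lagrange

/-!
# Lines over a closed frame, every degree: weights which kill polynomials

A combination of the values of a polynomial at finitely many nodes with weights which kill the
polynomials of degree `< d` is small on a short window; combinations of the values of a polynomial
in several variables at two systems of points at the same times, when its coefficients are small or
linear. (After helper19, H19/P5/Wt.)
-/

set_option autoImplicit false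

namespace Pool.TNL

open Finset Real MvPolynomial
open Pool.STAT Pool.MIC.Frm Pool.FRM Pool.P4L

variable {K : ℕ}

/-- Weights at the nodes `x` which kill the polynomials of degree `< d`. -/
structure Wt (x : Fin K → ℝ) (L : ℝ) (d : ℕ) (lam : Fin K → ℝ) : Prop where
  abs : ∑ i, |lam i| ≤ L
  kill : ∀ p : Polynomial ℝ, p.natDegree < d → ∑ i, lam i * p.eval (x i) = 0

section

variable {x : Fin K → ℝ} {L : ℝ} {d : ℕ} {lam : Fin K → ℝ}

theorem Wt.mono (h : Wt x L d lam) {d' : ℕ} (hd : d' ≤ d) : Wt x L d' lam :=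
  ⟨h.abs, fun p hp => h.kill p (lt_of_lt_of_le hp hd)⟩

theorem Wt.le (h : Wt x L d lam) {f : Fin K → ℝ} {A : ℝ} (hA : 0 ≤ A) (hf : ∀ i, |f i| ≤ A) :
    |∑ i, lam i * f i| ≤ L * A := by
  calc |∑ i, lam i * f i| ≤ ∑ i, |lam i * f i| := Finset.abs_sum_le_sum_abs _ _
    _ ≤ ∑ i, |lam i| * A := Finset.sum_le_sum fun i _ => by
        rw [abs_mul]
        exact mul_le_mul_of_nonneg_left (hf i) (abs_nonneg _)
    _ = (∑ i, |lam i|) * A := (Finset.sum_mul _ _ _).symm
    _ ≤ L * A := mul_le_mul_of_nonneg_right h.abs hA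

theorem Wt.mul0 {m : ℕ} (h : Wt x L d lam) {τ : Polynomial ℝ} {T : ℝ}
    (hT : 0 < T) (hb : ∀ i, |τ.eval (x i)| ≤ T) :
    Wt x L 0 fun i => lam i * (τ.eval (x i) / T) ^ m := by
  refine ⟨le_trans (Finset.sum_le_sum fun i _ => ?_) h.abs, fun p hp =>
    absurd hp (Nat.not_lt_zero _)⟩
  rw [abs_mul, abs_pow]
  have h1 : |τ.eval (x i) / T| ≤ 1 := by
    rw [abs_div, abs_of_pos hT, div_le_one hT]
    exact hb i
  exact mul_le_of_le_one_right (abs_nonneg _) (pow_le_one₀ (abs_nonneg _) h1)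

theorem Wt.mul {m : ℕ} (h : Wt x L (d + m) lam) {τ : Polynomial ℝ} (hτ : τ.natDegree ≤ 1) {T : ℝ}
    (hT : 0 < T) (hb : ∀ i, |τ.eval (x i)| ≤ T) :
    Wt x L d fun i => lam i * (τ.eval (x i) / T) ^ m := by
  refine ⟨le_trans (Finset.sum_le_sum fun i _ => ?_) h.abs, fun p hp => ?_⟩
  · rw [abs_mul, abs_pow]
    have h1 : |τ.eval (x i) / T| ≤ 1 := by
      rw [abs_div, abs_of_pos hT, div_le_one hT]
      exact hb i
    exact mul_le_of_le_one_right (abs_nonneg _) (pow_le_one₀ (abs_nonneg _) h1)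
  · have h1 := h.kill (τ ^ m * p) (by
      refine lt_of_le_of_lt Polynomial.natDegree_mul_le ?_
      have h2 : (τ ^ m).natDegree ≤ m * 1 :=
        Polynomial.natDegree_pow_le.trans (Nat.mul_le_mul_left m hτ)
      omega)
    have h2 : ∀ i, lam i * (τ.eval (x i) / T) ^ m * p.eval (x i) =
        (1 / T ^ m) * (lam i * (τ ^ m * p).eval (x i)) := fun i => by
      rw [Polynomial.eval_mul, Polynomial.eval_pow, div_pow]
      ring
    rw [Finset.sum_congr rfl fun i _ => h2 i, ← Finset.mul_sum, h1, mul_zero]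

theorem Wt.mulm (h : Wt x L d lam) (m : ℕ) {τ : Polynomial ℝ} (hτ : τ.natDegree ≤ 1) {T : ℝ}
    (hT : 0 < T) (hb : ∀ i, |τ.eval (x i)| ≤ T) :
    Wt x L (d - m) fun i => lam i * (τ.eval (x i) / T) ^ m := by
  rcases Nat.lt_or_ge d m with h1 | h1
  · rw [Nat.sub_eq_zero_of_le h1.le]
    exact h.mul0 hT hb
  · exact Wt.mul (d := d - m) (by rwa [Nat.sub_add_cancel h1]) hτ hT hb

end

/-- Combinations of the values of a polynomial which is bounded on a long window. -/
theorem tayW (N : ℕ) : ∃ C : ℝ, 1 ≤ C ∧ ∀ (x : Fin K → ℝ) (L : ℝ) (d : ℕ) (lam : Fin K → ℝ),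
    Wt x L d lam → (∀ i, 0 ≤ x i ∧ x i ≤ 1) → ∀ (Q : Polynomial ℝ) (t₀ h ρ A : ℝ),
    Q.natDegree ≤ N → 0 ≤ h → 0 < ρ → h ≤ ρ → (∀ t, t₀ ≤ t → t ≤ t₀ + ρ → |Q.eval t| ≤ A) →
    |∑ i, lam i * Q.eval (t₀ + x i * h)| ≤ C * L * A * (h / ρ) ^ d := by
  obtain ⟨C, hC, hcb⟩ := Pool.KAL.TAY.coef_bound N
  refine ⟨(N + 1) * C + 1, by
    have : (0 : ℝ) ≤ (N + 1) * C := by positivity
    linarith, ?_⟩
  intro x L d lam hw hx Q t₀ h ρ A hN h0 hρ hhρ hA
  have hL : 0 ≤ L := (Finset.sum_nonneg fun i _ => abs_nonneg (lam i)).trans hw.abs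
  have hA0 : 0 ≤ A := (abs_nonneg _).trans (hA t₀ le_rfl (by linarith))
  obtain ⟨q, hq⟩ : ∃ q : Polynomial ℝ, q = Q.comp (Polynomial.C t₀ + Polynomial.C ρ *
    Polynomial.X) := ⟨_, rfl⟩
  have hev : ∀ u, q.eval u = Q.eval (t₀ + ρ * u) := fun u => by
    rw [hq, Polynomial.eval_comp, Polynomial.eval_add, Polynomial.eval_C, Polynomial.eval_mul,
      Polynomial.eval_C, Polynomial.eval_X]
  have hqd : q.natDegree ≤ N := by
    rw [hq]
    refine Polynomial.natDegree_comp_le.trans ?_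
    have h1 : (Polynomial.C t₀ + Polynomial.C ρ * Polynomial.X : Polynomial ℝ).natDegree ≤ 1 := by
      refine (Polynomial.natDegree_add_le _ _).trans (max_le ?_ ?_)
      · rw [Polynomial.natDegree_C]
        exact Nat.zero_le _
      · exact (Polynomial.natDegree_C_mul_le _ _).trans Polynomial.natDegree_X_le
    calc Q.natDegree * _ ≤ N * 1 := Nat.mul_le_mul hN h1
      _ = N := mul_one N
  have hco : ∀ m ≤ N, |q.coeff m| ≤ C * A := hcb q A hqd fun u u0 u1 => by
    rw [hev]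
    exact hA _ (by nlinarith) (by nlinarith)
  obtain ⟨e, he⟩ : ∃ e, e = h / ρ := ⟨_, rfl⟩
  have he0 : 0 ≤ e := by rw [he]; positivity
  have he1 : e ≤ 1 := by rw [he, div_le_one hρ]; exact hhρ
  have hre : ∀ u : ℝ, ρ * (u * e) = u * h := fun u => by
    rw [he]
    field_simp
  have E1 : ∀ u : ℝ, Q.eval (t₀ + u * h) = ∑ m ∈ range (N + 1), q.coeff m * (u * e) ^ m := by
    intro u
    rw [← Polynomial.eval_eq_sum_range' (Nat.lt_succ_of_le hqd), hev, hre]
  have E2 : ∑ i, lam i * Q.eval (t₀ + x i * h) =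
      ∑ m ∈ range (N + 1), q.coeff m * e ^ m * ∑ i, lam i * x i ^ m := by
    simp only [E1, Finset.mul_sum]
    rw [Finset.sum_comm]
    refine Finset.sum_congr rfl fun m _ => Finset.sum_congr rfl fun i _ => ?_
    rw [mul_pow]
    ring
  rw [E2, ← he]
  have hCA : 0 ≤ C * A := by positivity
  have key : ∀ m ∈ range (N + 1), |q.coeff m * e ^ m * ∑ i, lam i * x i ^ m| ≤
      C * A * e ^ d * L := by
    intro m hm
    rcases Nat.lt_or_ge m d with h1 | h1
    · have h2 := hw.kill (Polynomial.X ^ m) (by rwa [Polynomial.natDegree_X_pow])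
      simp only [Polynomial.eval_pow, Polynomial.eval_X] at h2
      rw [h2, mul_zero, abs_zero]
      positivity
    · rw [abs_mul, abs_mul, abs_of_nonneg (by positivity : 0 ≤ e ^ m)]
      have h2 : |∑ i, lam i * x i ^ m| ≤ L * 1 := hw.le zero_le_one fun i => by
        rw [abs_pow, abs_of_nonneg (hx i).1]
        exact pow_le_one₀ (hx i).1 (hx i).2
      rw [mul_one] at h2
      exact mul_le_mul (mul_le_mul (hco m (Nat.lt_succ_iff.1 (mem_range.1 hm)))
        (pow_le_pow_of_le_one he0 he1 h1) (by positivity) hCA) h2 (abs_nonneg _) (by positivity)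
  refine (Finset.abs_sum_le_sum_abs _ _).trans ((Finset.sum_le_sum key).trans ?_)
  rw [Finset.sum_const, card_range, nsmul_eq_mul]
  push_cast
  have h3 : 0 ≤ L * A * e ^ d := by positivity
  have h4 : ((N + 1) * C + 1) * L * A * e ^ d =
    ((N : ℝ) + 1) * (C * A * e ^ d * L) + L * A * e ^ d := by ring
  rw [h4]
  linarith only [h3]

/-- **Two systems of points at the same times.** -/
theorem trG {n N : ℕ} {F : PN} (hv : F.vars ⊆ range n) (hN : F.totalDegree ≤ N)
    {g : ℕ → ℕ} {l : ℕ} {B S δ L : ℝ} (hB : 1 ≤ B) (hS : 0 ≤ S) (hδ : 0 ≤ δ) (hL : 1 ≤ L)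
    {x : Fin K → ℝ} {d : ℕ} {lam : Fin K → ℝ} (hw : Wt x L d lam)
    (hF : ∀ α, Sm g l F S 1 α)
    {X X' : Fin K → ℕ → ℝ} {τ : Polynomial ℝ} (hτ : τ.natDegree ≤ 1)
    (h0 : ∀ i, X i 0 = τ.eval (x i)) (h0' : ∀ i, X' i 0 = τ.eval (x i))
    (h0b : ∀ i, |τ.eval (x i)| ≤ B / 2 ^ g 0)
    (hb : ∀ i, ∀ k < n, |X i k| ≤ B / 2 ^ g k) (hb' : ∀ i, ∀ k < n, |X' i k| ≤ B / 2 ^ g k)
    (hs : ∀ α ∈ exs n N, Sm g l F S δ α ∨ (∀ k, 1 ≤ k → α k = 0) ∨
      ∃ k m, 1 ≤ k ∧ α = Finsupp.single k 1 + Finsupp.single 0 m ∧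
        ∀ mu, Wt x L (d - m) mu → |∑ i, mu i * (X i k - X' i k)| ≤ B * δ / 2 ^ g k) :
    |∑ i, lam i * (eval (X i) F - eval (X' i) F)| ≤
      (exs n N).card * (2 * L * B ^ (n * N + 1) * S) * δ / 2 ^ g l := by
  have hBN : 0 ≤ B ^ (n * N) := by positivity
  have hBN1 : B ^ (n * N) ≤ B ^ (n * N + 1) := pow_le_pow_right₀ hB (by omega)
  have g0 : (0 : ℝ) < 2 ^ g l := by positivity
  have e1 : ∑ i, lam i * (eval (X i) F - eval (X' i) F) =
      ∑ α ∈ exs n N, coeff α F * ∑ i, lam i * (mon α (X i) - mon α (X' i)) := by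
    have h1 : ∀ i, lam i * (eval (X i) F - eval (X' i) F) =
        ∑ α ∈ exs n N, coeff α F * (lam i * (mon α (X i) - mon α (X' i))) := fun i => by
      rw [eval_mon hv hN, eval_mon hv hN, ← Finset.sum_sub_distrib, Finset.mul_sum]
      exact Finset.sum_congr rfl fun α _ => by ring
    rw [Finset.sum_congr rfl fun i _ => h1 i, Finset.sum_comm]
    exact Finset.sum_congr rfl fun α _ => by rw [Finset.mul_sum]
  rw [e1]
  refine (Finset.abs_sum_le_sum_abs _ _).trans ?_
  have key : ∀ α ∈ exs n N, |coeff α F * ∑ i, lam i * (mon α (X i) - mon α (X' i))| ≤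
      (2 * L * B ^ (n * N + 1) * S) * δ / 2 ^ g l := by
    intro α hα
    rcases hs α hα with h | h | ⟨k, m, k1, hk, hd⟩
    · unfold Sm at h
      have hw0 : (0 : ℝ) ≤ (1 / 2) ^ Finsupp.weight g α := by positivity
      have h1 : |∑ i, lam i * (mon α (X i) - mon α (X' i))| ≤
          L * (2 * (B ^ (n * N) * (1 / 2) ^ Finsupp.weight g α)) := by
        refine hw.le (by positivity) fun i => ?_
        have a1 := mon_le hB hα (hb i)
        have a2 := mon_le hB hα (hb' i)
        refine (abs_sub _ _).trans ?_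
        linarith only [a1, a2]
      rw [abs_mul]
      calc |coeff α F| * |∑ i, lam i * (mon α (X i) - mon α (X' i))| ≤
            |coeff α F| * (L * (2 * (B ^ (n * N) * (1 / 2) ^ Finsupp.weight g α))) :=
            mul_le_mul_of_nonneg_left h1 (abs_nonneg _)
        _ = (2 * L * B ^ (n * N)) * (|coeff α F| * (1 / 2) ^ Finsupp.weight g α) := by ring
        _ ≤ (2 * L * B ^ (n * N)) * (S * δ / 2 ^ g l) :=
            mul_le_mul_of_nonneg_left h (by positivity)
        _ ≤ (2 * L * B ^ (n * N + 1)) * (S * δ / 2 ^ g l) :=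
            mul_le_mul_of_nonneg_right (mul_le_mul_of_nonneg_left hBN1 (by positivity))
              (by positivity)
        _ = _ := by ring
    · have h1 : ∑ i, lam i * (mon α (X i) - mon α (X' i)) = 0 :=
        Finset.sum_eq_zero fun i _ => by
          rw [mon_time h ((h0 i).trans (h0' i).symm), sub_self, mul_zero]
      rw [h1, mul_zero, abs_zero]
      positivity
    · have hkn : k < n := exs_lt hα (Finsupp.mem_support_iff.2 (by
        rw [hk, Finsupp.add_apply, Finsupp.single_eq_same]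
        omega))
      have hdeg := exs_deg hα
      rw [← Finsupp.degree_apply, hk, map_add, Finsupp.degree_single, Finsupp.degree_single]
        at hdeg
      have hT : 0 < B / 2 ^ g 0 := by positivity
      have hm : |∑ i, lam i * (τ.eval (x i) / (B / 2 ^ g 0)) ^ m * (X i k - X' i k)| ≤
          B * δ / 2 ^ g k := hd _ (hw.mulm m hτ hT h0b)
      have e2 : ∀ Y : ℕ → ℝ, mon α Y = Y 0 ^ m * Y k := by
        intro Y
        rw [hk]
        unfold mon
        rcases Nat.eq_zero_or_pos m with hm0 | hm0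
        · rw [hm0, Finsupp.single_zero, add_zero, Finsupp.support_single k one_ne_zero,
            Finset.prod_singleton, Finsupp.single_eq_same, pow_one, pow_zero, one_mul]
        · have hdis : Disjoint (Finsupp.single k 1 : ℕ →₀ ℕ).support
              (Finsupp.single 0 m : ℕ →₀ ℕ).support := by
            rw [Finsupp.support_single k one_ne_zero,
              Finsupp.support_single 0 (by omega)]
            exact Finset.disjoint_singleton.2 (by omega)
          rw [Finsupp.support_add_eq hdis, Finsupp.support_single k one_ne_zero,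
            Finsupp.support_single 0 (by omega)]
          rw [Finset.prod_union (Finset.disjoint_singleton.2 (by omega)), Finset.prod_singleton,
            Finset.prod_singleton, Finsupp.add_apply, Finsupp.add_apply, Finsupp.single_eq_same,
            Finsupp.single_eq_same, Finsupp.single_eq_of_ne (by omega),
            Finsupp.single_eq_of_ne (by omega), add_zero, zero_add, pow_one, mul_comm]
      have e3 : ∑ i, lam i * (mon α (X i) - mon α (X' i)) =
          (B / 2 ^ g 0) ^ m * ∑ i, lam i * (τ.eval (x i) / (B / 2 ^ g 0)) ^ m *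
            (X i k - X' i k) := by
        rw [Finset.mul_sum]
        refine Finset.sum_congr rfl fun i _ => ?_
        have aux : ∀ T a t u v : ℝ, T ^ m ≠ 0 →
            a * (t ^ m * u - t ^ m * v) = T ^ m * (a * (t / T) ^ m * (u - v)) := by
          intro T a t u v h
          rw [div_pow]
          field_simp
        rw [e2, e2, h0 i, h0' i]
        exact aux _ _ _ _ _ (by positivity)
      have h4 : |coeff α F| * (1 / 2) ^ Finsupp.weight g α ≤ S * 1 / 2 ^ g l := hF α
      have h5 : ((1 : ℝ) / 2) ^ Finsupp.weight g α = 1 / (2 ^ g 0) ^ m * (1 / 2 ^ g k) := by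
        rw [hk, map_add, Finsupp.weight_single, Finsupp.weight_single, one_smul, smul_eq_mul,
          pow_add, half_pow, half_pow, mul_comm m, pow_mul]
        ring
      rw [h5] at h4
      rw [e3, abs_mul, abs_mul, abs_of_pos (by positivity : 0 < (B / 2 ^ g 0) ^ m)]
      have hBm : B ^ m * B ≤ 2 * L * B ^ (n * N + 1) := by
        calc B ^ m * B = B ^ (m + 1) := (pow_succ B m).symm
          _ ≤ B ^ (n * N + 1) := pow_le_pow_right₀ hB (by omega)
          _ ≤ 2 * L * B ^ (n * N + 1) :=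
              le_mul_of_one_le_left (by positivity) (by linarith only [hL])
      calc |coeff α F| * ((B / 2 ^ g 0) ^ m *
            |∑ i, lam i * (τ.eval (x i) / (B / 2 ^ g 0)) ^ m * (X i k - X' i k)|) ≤
            |coeff α F| * ((B / 2 ^ g 0) ^ m * (B * δ / 2 ^ g k)) :=
            mul_le_mul_of_nonneg_left (mul_le_mul_of_nonneg_left hm (by positivity))
              (abs_nonneg _)
        _ = (B ^ m * B * δ) * (|coeff α F| * (1 / (2 ^ g 0) ^ m * (1 / 2 ^ g k))) := by
            rw [div_pow]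
            ring
        _ ≤ (B ^ m * B * δ) * (S * 1 / 2 ^ g l) := mul_le_mul_of_nonneg_left h4 (by positivity)
        _ = B ^ m * B * (S * δ / 2 ^ g l) := by ring
        _ ≤ 2 * L * B ^ (n * N + 1) * (S * δ / 2 ^ g l) :=
            mul_le_mul_of_nonneg_right hBm (by positivity)
        _ = _ := by ring
  refine (Finset.sum_le_sum key).trans (le_of_eq ?_)
  rw [Finset.sum_const, nsmul_eq_mul]
  ring

/-- From the chart of `Q` to the chart of `P`. -/
theorem coreG {N l : ℕ} {P Q : ℕ → PN} {g : ℕ → ℕ} {B S δ L : ℝ} (hQ : TriN Q)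
    (hv : (chr Q (P l - Q l)).vars ⊆ range l) (hN : (chr Q (P l - Q l)).totalDegree ≤ N)
    (hB : 1 ≤ B) (hS : 0 ≤ S) (hδ : 0 ≤ δ) (hL : 1 ≤ L)
    {x : Fin K → ℝ} {d : ℕ} {lam : Fin K → ℝ} (hw : Wt x L d lam)
    (hF : ∀ α, Sm g l (chr Q (P l - Q l)) S 1 α)
    {X X' : Fin K → ℕ → ℝ} {τ : Polynomial ℝ} (hτ : τ.natDegree ≤ 1)
    (h0 : ∀ i, zs Q (X i) 0 = τ.eval (x i)) (h0' : ∀ i, zs Q (X' i) 0 = τ.eval (x i))
    (h0b : ∀ i, |τ.eval (x i)| ≤ B / 2 ^ g 0)
    (hb : ∀ i, ∀ k < l, |zs Q (X i) k| ≤ B / 2 ^ g k)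
    (hb' : ∀ i, ∀ k < l, |zs Q (X' i) k| ≤ B / 2 ^ g k)
    (hs : ∀ α ∈ exs l N, Sm g l (chr Q (P l - Q l)) S δ α ∨ (∀ k, 1 ≤ k → α k = 0) ∨
      ∃ k m, 1 ≤ k ∧ α = Finsupp.single k 1 + Finsupp.single 0 m ∧
        ∀ mu, Wt x L (d - m) mu →
          |∑ i, mu i * (zs Q (X i) k - zs Q (X' i) k)| ≤ B * δ / 2 ^ g k)
    (hD : |∑ i, lam i * (zs Q (X i) l - zs Q (X' i) l)| ≤ B * δ / 2 ^ g l) :
    |∑ i, lam i * (zs P (X i) l - zs P (X' i) l)| ≤
      (B + (exs l N).card * (2 * L * B ^ (l * N + 1) * S)) * δ / 2 ^ g l := by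
  have h1 := trG hv hN hB hS hδ hL hw hF (X := fun i => zs Q (X i))
    (X' := fun i => zs Q (X' i)) hτ h0 h0' h0b hb hb' hs
  have h2 := hD
  have e : ∑ i, lam i * (zs P (X i) l - zs P (X' i) l) =
      (∑ i, lam i * (zs Q (X i) l - zs Q (X' i) l)) -
        ∑ i, lam i * (eval (zs Q (X i)) (chr Q (P l - Q l)) -
          eval (zs Q (X' i)) (chr Q (P l - Q l))) := by
    rw [← Finset.sum_sub_distrib]
    refine Finset.sum_congr rfl fun i _ => ?_
    rw [zs_two hQ (X i), zs_two hQ (X' i)]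
    ring
  rw [e]
  refine (abs_sub _ _).trans ?_
  have e2 : (B + (exs l N).card * (2 * L * B ^ (l * N + 1) * S)) * δ / 2 ^ g l =
      B * δ / 2 ^ g l + (exs l N).card * (2 * L * B ^ (l * N + 1) * S) * δ / 2 ^ g l := by ring
  rw [e2]
  linarith only [h1, h2]

/-- **Coefficients from values**: finitely many nodes in `[0, 1]` and weights which give the
coefficients of the polynomials of degree `≤ N`. -/
theorem ext_nodes (N : ℕ) : ∃ (x : Fin (N + 1) → ℝ) (L : ℝ), 1 ≤ L ∧ (∀ i, 0 ≤ x i ∧ x i ≤ 1) ∧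
    ∀ m ≤ N, ∃ mu : Fin (N + 1) → ℝ, Wt x L m mu ∧
      ∀ p : Polynomial ℝ, p.natDegree ≤ N → ∑ i, mu i * p.eval (x i) = p.coeff m := by
  classical
  obtain ⟨x, hx⟩ : ∃ x : Fin (N + 1) → ℝ, x = fun i : Fin (N + 1) => ((i : ℕ) : ℝ) / (N + 1) :=
    ⟨_, rfl⟩
  have hN0 : (0 : ℝ) < N + 1 := by positivity
  have hinj : Function.Injective x := fun i j h => by
    rw [hx] at h
    have h1 : ((i : ℕ) : ℝ) / (N + 1) = ((j : ℕ) : ℝ) / (N + 1) := h
    rw [div_left_inj' hN0.ne'] at h1
    exact Fin.ext (by exact_mod_cast h1)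
  obtain ⟨L, hL⟩ : ∃ L : ℝ, L = 1 + ∑ m ∈ range (N + 1), ∑ i,
    |(Lagrange.basis univ x i).coeff m| := ⟨_, rfl⟩
  have hsum : 0 ≤ ∑ m ∈ range (N + 1), ∑ i, |(Lagrange.basis univ x i).coeff m| :=
    Finset.sum_nonneg fun m _ => Finset.sum_nonneg fun i _ => abs_nonneg _
  refine ⟨x, L, by rw [hL]; linarith only [hsum], fun i => ?_, fun m hm => ?_⟩
  · rw [hx]
    have hi : ((i : ℕ) : ℝ) ≤ N + 1 := by
      have := i.2
      exact_mod_cast this.le
    exact ⟨by positivity, (div_le_one hN0).2 hi⟩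
  have key : ∀ p : Polynomial ℝ, p.natDegree ≤ N →
      ∑ i, (Lagrange.basis univ x i).coeff m * p.eval (x i) = p.coeff m := by
    intro p hp
    have h1 := Lagrange.eq_interpolate (s := univ) (v := x) (f := p) (hinj.injOn) (by
      rw [Finset.card_univ, Fintype.card_fin]
      exact lt_of_le_of_lt Polynomial.degree_le_natDegree (by exact_mod_cast Nat.lt_succ_of_le hp))
    conv_rhs => rw [h1]
    rw [Lagrange.interpolate_apply, Polynomial.finsetSum_coeff]
    refine Finset.sum_congr rfl fun i _ => ?_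
    rw [Polynomial.coeff_C_mul, mul_comm]
  refine ⟨fun i => (Lagrange.basis univ x i).coeff m, ⟨?_, fun p hp => ?_⟩, key⟩
  · rw [hL]
    have h1 := Finset.single_le_sum
      (f := fun m => ∑ i, |(Lagrange.basis univ x i).coeff m|)
      (fun m _ => Finset.sum_nonneg fun i _ => abs_nonneg _)
      (mem_range.2 (Nat.lt_succ_of_le hm))
    linarith only [h1]
  · rw [key p (by omega), Polynomial.coeff_eq_zero_of_natDegree_lt hp]

end Pool.TNL
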